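import Mathlib

/-!
# Cumulative subtraction games: eventual periodicity of the tie-breaking discrepancies

For every finite nonempty subtraction set `S ⊆ {1,2,…}` and each of the two tie-breaking
conventions (friendly / antagonistic), the outcome of either player satisfies
`o(h + 2 max S) = o(h) + max S` for all large `h`.  Hence both discrepancies
`δⁱ = oⁱ_A - oⁱ_F` are eventually periodic with period `2 max S`.
-/

namespace Pool.Agent.Results.MP_e9de46_co.DiscrepancyPeriodic

/-- The tie-breaking convention used by both players. -/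
inductive Convention
  | friendly
  | antagonistic

/-- `S(h)`, the set of legal moves at heap size `h`. -/
def legal (S : Finset ℕ) (h : ℕ) : Finset ℕ := S.filter (fun s => 1 ≤ s ∧ s ≤ h)

/-- `outcome S X h = (o¹_X(h), o²_X(h))`.  If there is no legal move both entries are `0`.
Otherwise `o¹(h)` is the maximum of `s + o²(h-s)` over the legal moves `s`, `best` is the set
`S*(h)` of maximisers, and `o²(h)` is the maximum (friendly) resp. the minimum (antagonistic)
of `o¹(h-s)` over `s ∈ S*(h)`. -/
noncomputable def outcome (S : Finset ℕ) (X : Convention) (h : ℕ) : ℕ × ℕ :=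
  let rest : ℕ → ℕ × ℕ := fun s =>
    if _hs : 1 ≤ s ∧ s ≤ h then outcome S X (h - s) else (0, 0)
  let o1 : ℕ := (legal S h).sup (fun s => s + (rest s).2)
  let best : Finset ℕ := (legal S h).filter (fun s => s + (rest s).2 = o1)
  let o2 : ℕ := match X with
    | .friendly => best.sup (fun s => (rest s).1)
    | .antagonistic => sInf {t : ℕ | ∃ s ∈ best, (rest s).1 = t}
  (o1, o2)
termination_by h
decreasing_by omega

/-- The discrepancies `δ¹(h) = o¹_A(h) - o¹_F(h)` (`i = 0`) and
`δ²(h) = o²_A(h) - o²_F(h)` (`i = 1`). -/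
noncomputable def discrepancy (S : Finset ℕ) (i : Fin 2) (h : ℕ) : ℤ :=
  if i = 0 then
    ((outcome S .antagonistic h).1 : ℤ) - ((outcome S .friendly h).1 : ℤ)
  else
    ((outcome S .antagonistic h).2 : ℤ) - ((outcome S .friendly h).2 : ℤ)

/-! ### Properties of the recursion -/

section spec

variable (S : Finset ℕ) (X : Convention)

lemma mem_legal {S : Finset ℕ} {h s : ℕ} : s ∈ legal S h ↔ s ∈ S ∧ 1 ≤ s ∧ s ≤ h := by
  simp [legal]

lemma o1_eq (h : ℕ) :
    (outcome S X h).1 = (legal S h).sup (fun s => s + (outcome S X (h - s)).2) := by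
  conv_lhs => rw [outcome.eq_def]
  apply Finset.sup_congr rfl
  intro s hs
  rw [mem_legal] at hs
  simp [hs.2]

lemma ge_of_mem {h s : ℕ} (hs : s ∈ S) (h1 : 1 ≤ s) (h2 : s ≤ h) :
    s + (outcome S X (h - s)).2 ≤ (outcome S X h).1 := by
  rw [o1_eq S X h]
  exact Finset.le_sup (f := fun s => s + (outcome S X (h - s)).2) (mem_legal.mpr ⟨hs, h1, h2⟩)

lemma best_eq (h : ℕ) :
    ((legal S h).filter (fun s => s +
        ((if _hs : 1 ≤ s ∧ s ≤ h then outcome S X (h - s) else (0, 0)) : ℕ × ℕ).2
          = (legal S h).sup (fun s => s +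
        ((if _hs : 1 ≤ s ∧ s ≤ h then outcome S X (h - s) else (0, 0)) : ℕ × ℕ).2))) =
    ((legal S h).filter (fun s => s + (outcome S X (h - s)).2 = (outcome S X h).1)) := by
  have e : (legal S h).sup (fun s => s +
        ((if _hs : 1 ≤ s ∧ s ≤ h then outcome S X (h - s) else (0, 0)) : ℕ × ℕ).2)
        = (outcome S X h).1 := by
    rw [o1_eq S X h]
    apply Finset.sup_congr rfl
    intro s hs
    rw [mem_legal] at hs
    simp [hs.2]
  rw [e]
  apply Finset.filter_congr
  intro s hs
  rw [mem_legal] at hs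
  simp [hs.2]

lemma o2_friendly (h : ℕ) :
    (outcome S .friendly h).2 =
      ((legal S h).filter (fun s => s + (outcome S .friendly (h - s)).2
        = (outcome S .friendly h).1)).sup (fun s => (outcome S .friendly (h - s)).1) := by
  conv_lhs => rw [outcome]
  simp only []
  rw [best_eq]
  apply Finset.sup_congr rfl
  intro s hs
  rw [Finset.mem_filter, mem_legal] at hs
  simp [hs.1.2]

lemma o2_antagonistic (h : ℕ) :
    (outcome S .antagonistic h).2 =
      sInf {t : ℕ | ∃ s ∈ ((legal S h).filter (fun s => s + (outcome S .antagonistic (h - s)).2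
        = (outcome S .antagonistic h).1)), (outcome S .antagonistic (h - s)).1 = t} := by
  conv_lhs => rw [outcome]
  simp only []
  rw [best_eq]
  congr 1
  ext t
  simp only [Set.mem_ofPred_eq]
  constructor
  · rintro ⟨s, hs, rfl⟩
    refine ⟨s, hs, ?_⟩
    rw [Finset.mem_filter, mem_legal] at hs
    simp [hs.1.2]
  · rintro ⟨s, hs, rfl⟩
    refine ⟨s, hs, ?_⟩
    rw [Finset.mem_filter, mem_legal] at hs
    simp [hs.1.2]

/-- A move attaining the maximum exists. -/
lemma exists_best {h : ℕ} (hL : (legal S h).Nonempty) :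
    ((legal S h).filter
      (fun s => s + (outcome S X (h - s)).2 = (outcome S X h).1)).Nonempty := by
  obtain ⟨s, hs, he⟩ := Finset.exists_mem_eq_sup (legal S h) hL
    (fun s => s + (outcome S X (h - s)).2)
  exact ⟨s, by rw [Finset.mem_filter]; exact ⟨hs, by rw [o1_eq S X h, he]⟩⟩

/-- The selected move. -/
lemma exists_sel {h : ℕ} (hL : (legal S h).Nonempty) :
    ∃ s ∈ legal S h, (outcome S X h).1 = s + (outcome S X (h - s)).2 ∧
      (outcome S X h).2 = (outcome S X (h - s)).1 := by
  have hb := exists_best S X hL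
  cases X with
  | friendly =>
    obtain ⟨s, hs, he⟩ := Finset.exists_mem_eq_sup _ hb
      (fun s => (outcome S .friendly (h - s)).1)
    rw [Finset.mem_filter] at hs
    exact ⟨s, hs.1, hs.2.symm, by rw [o2_friendly S h, he]⟩
  | antagonistic =>
    have hne : {t : ℕ | ∃ s ∈ ((legal S h).filter (fun s => s +
        (outcome S .antagonistic (h - s)).2 = (outcome S .antagonistic h).1)),
        (outcome S .antagonistic (h - s)).1 = t}.Nonempty := by
      obtain ⟨s, hs⟩ := hb
      exact ⟨_, s, hs, rfl⟩
    obtain ⟨s, hs, he⟩ := Nat.sInf_mem hne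
    rw [Finset.mem_filter] at hs
    exact ⟨s, hs.1, hs.2.symm, by rw [o2_antagonistic S h, he]⟩

lemma friendly_ge {h s : ℕ} (hs : s ∈ legal S h)
    (he : (outcome S .friendly h).1 = s + (outcome S .friendly (h - s)).2) :
    (outcome S .friendly (h - s)).1 ≤ (outcome S .friendly h).2 := by
  rw [o2_friendly S h]
  exact Finset.le_sup (f := fun s => (outcome S .friendly (h - s)).1)
    (Finset.mem_filter.mpr ⟨hs, he.symm⟩)

lemma antagonistic_le {h s : ℕ} (hs : s ∈ legal S h)
    (he : (outcome S .antagonistic h).1 = s + (outcome S .antagonistic (h - s)).2) :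
    (outcome S .antagonistic h).2 ≤ (outcome S .antagonistic (h - s)).1 := by
  rw [o2_antagonistic S h]
  exact Nat.sInf_le ⟨s, Finset.mem_filter.mpr ⟨hs, he.symm⟩, rfl⟩

lemma no_move {h : ℕ} (hL : ¬ (legal S h).Nonempty) : outcome S X h = (0, 0) := by
  have hE : legal S h = ∅ := Finset.not_nonempty_iff_eq_empty.mp hL
  have h1 : (outcome S X h).1 = 0 := by rw [o1_eq, hE]; simp
  have h2 : (outcome S X h).2 = 0 := by
    cases X with
    | friendly => rw [o2_friendly, hE]; simp
    | antagonistic => rw [o2_antagonistic, hE]; simp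
  exact Prod.ext h1 h2

end spec

/-! ### The abstract argument -/

/-- A pair of functions `a = o¹`, `b = o²` produced by some selection rule. -/
structure Play (S : Finset ℕ) (m : ℕ) (a b : ℕ → ℕ) : Prop where
  mS : m ∈ S
  mpos : 1 ≤ m
  rng : ∀ s ∈ S, 1 ≤ s ∧ s ≤ m
  ge : ∀ h s, s ∈ S → s ≤ h → s + b (h - s) ≤ a h
  sel : ∀ h, (∃ s ∈ S, s ≤ h) → ∃ s ∈ S, s ≤ h ∧ a h = s + b (h - s) ∧ b h = a (h - s)
  zero : ∀ h, (¬ ∃ s ∈ S, s ≤ h) → a h = 0 ∧ b h = 0

namespace Play

variable {S : Finset ℕ} {m : ℕ} {a b : ℕ → ℕ}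

lemma total (P : Play S m a b) : ∀ h, a h + b h ≤ h := by
  intro h
  induction h using Nat.strong_induction_on with
  | _ h ih =>
    by_cases hL : ∃ s ∈ S, s ≤ h
    · obtain ⟨s, hs, hsh, e1, e2⟩ := P.sel h hL
      have := P.rng s hs
      have := ih (h - s) (by omega)
      omega
    · have := P.zero h hL
      omega

lemma bounds (P : Play S m a b) : ∀ h k j, j < m →
    ((h = 2 * (m * k) + j → m * k ≤ a h ∧ m * k ≤ b h) ∧
     (h = 2 * (m * k) + m + j → m * k + m ≤ a h ∧ m * k ≤ b h)) := by
  intro h
  induction h using Nat.strong_induction_on with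
  | _ h ih =>
    intro k j hj
    have hm := P.mpos
    constructor
    · intro hh
      rcases k with _ | k
      · simp
      · rw [Nat.mul_succ] at hh ⊢
        have g := P.ge h m P.mS (by omega)
        have i1 := ((ih (h - m) (by omega) k j hj).2 (by omega)).2
        obtain ⟨s, hs, hsh, e1, e2⟩ := P.sel h ⟨m, P.mS, by omega⟩
        have hr := P.rng s hs
        refine ⟨by omega, ?_⟩
        rw [e2]
        by_cases hsj : s ≤ j
        · have := ((ih (h - s) (by omega) (k + 1) (j - s) (by omega)).1
            (by rw [Nat.mul_succ]; omega)).1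
          rw [Nat.mul_succ] at this
          exact this
        · have := ((ih (h - s) (by omega) k (m + j - s) (by omega)).2 (by omega)).1
          exact this
    · intro hh
      have g := P.ge h m P.mS (by omega)
      have i1 := ((ih (h - m) (by omega) k j hj).1 (by omega)).2
      obtain ⟨s, hs, hsh, e1, e2⟩ := P.sel h ⟨m, P.mS, by omega⟩
      have hr := P.rng s hs
      refine ⟨by omega, ?_⟩
      rw [e2]
      by_cases hsj : s ≤ j
      · have := ((ih (h - s) (by omega) k (j - s) (by omega)).2 (by omega)).1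
        omega
      · exact ((ih (h - s) (by omega) k (m + j - s) (by omega)).1 (by omega)).1

lemma ea (P : Play S m a b) {k j : ℕ} (hj : j < m) : m * k ≤ a (2 * (m * k) + j) :=
  ((P.bounds _ k j hj).1 rfl).1
lemma eb (P : Play S m a b) {k j : ℕ} (hj : j < m) : m * k ≤ b (2 * (m * k) + j) :=
  ((P.bounds _ k j hj).1 rfl).2
lemma oa (P : Play S m a b) {k j : ℕ} (hj : j < m) : m * k + m ≤ a (2 * (m * k) + m + j) :=
  ((P.bounds _ k j hj).2 rfl).1
lemma ob (P : Play S m a b) {k j : ℕ} (hj : j < m) : m * k ≤ b (2 * (m * k) + m + j) :=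
  ((P.bounds _ k j hj).2 rfl).2

/-- In an odd block the selected move leads to the even block just below. -/
lemma odd_sel (P : Play S m a b) {k j : ℕ} (hj : j < m) :
    ∃ s ∈ S, j < s ∧ s ≤ m ∧
      a (2 * (m * k) + m + j) = s + b (2 * (m * k) + (m + j - s)) ∧
      b (2 * (m * k) + m + j) = a (2 * (m * k) + (m + j - s)) := by
  obtain ⟨s, hs, hsh, e1, e2⟩ := P.sel (2 * (m * k) + m + j) ⟨m, P.mS, by omega⟩
  have hr := P.rng s hs
  have hjs : j < s := by
    by_contra hcon
    have t := P.total (2 * (m * k) + m + j - s)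
    have o := P.oa (k := k) (j := j - s) (by omega)
    rw [show 2 * (m * k) + m + (j - s) = 2 * (m * k) + m + j - s by omega] at o
    have g := P.ge (2 * (m * k) + m + j) m P.mS (by omega)
    have e := P.eb (k := k) hj
    rw [show 2 * (m * k) + m + j - m = 2 * (m * k) + j by omega] at g
    omega
  refine ⟨s, hs, hjs, hr.2, ?_, ?_⟩
  · rw [e1, show 2 * (m * k) + m + j - s = 2 * (m * k) + (m + j - s) by omega]
  · rw [e2, show 2 * (m * k) + m + j - s = 2 * (m * k) + (m + j - s) by omega]

lemma lower (P : Play S m a b) {s d : ℕ} (hs : s ∈ S) (hsd : s + d = m) :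
    ∀ n k j, n ≤ k → j < m → m ≤ j + (n + 1) * d →
      m * k + m ≤ a (2 * (m * k) + j) + (n + 1) * d := by
  intro n
  have hr := P.rng s hs
  induction n with
  | zero =>
    intro k j _ hj hmd
    have g := P.ge (2 * (m * k) + j) s hs (by omega)
    have e := P.eb (k := k) (j := j - s) (by omega)
    rw [show 2 * (m * k) + j - s = 2 * (m * k) + (j - s) by omega] at g
    omega
  | succ n ih =>
    intro k j hk hj hmd
    have hn : (n + 1 + 1) * d = (n + 1) * d + d := by ring
    rw [hn] at hmd ⊢
    by_cases hjd : m ≤ j + d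
    · have g := P.ge (2 * (m * k) + j) s hs (by omega)
      have e := P.eb (k := k) (j := j - s) (by omega)
      rw [show 2 * (m * k) + j - s = 2 * (m * k) + (j - s) by omega] at g
      omega
    · obtain ⟨k, rfl⟩ : ∃ k', k = k' + 1 := ⟨k - 1, by omega⟩
      rw [Nat.mul_succ]
      have g := P.ge (2 * (m * k + m) + j) s hs (by omega)
      rw [show 2 * (m * k + m) + j - s = 2 * (m * k) + m + (j + d) by omega] at g
      obtain ⟨t, ht, htj, htm, e1, e2⟩ := P.odd_sel (k := k) (j := j + d) (by omega)
      have i := ih k (m + (j + d) - t) (by omega) (by omega) (by omega)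
      omega

/-- In late even blocks, position `j + d` has a large outcome for every `d = m - s > 0`. -/
lemma large (P : Play S m a b) {k j s : ℕ} (hk : m ≤ k) (hs : s ∈ S) (hsm : s < m)
    (hjs : j < s) : m * k + j < a (2 * (m * k) + (m + j - s)) := by
  obtain ⟨d, hd⟩ : ∃ d, s + d = m := ⟨m - s, by omega⟩
  have hdpos : 0 < d := by omega
  -- N = (m-j-1)/d
  have h1 : (m - j - 1) / d * d ≤ m - j - 1 := Nat.div_mul_le_self _ _
  have h2 : m - j - 1 < ((m - j - 1) / d + 1) * d := by
    rw [Nat.add_mul, one_mul]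
    have := Nat.div_add_mod (m - j - 1) d
    have := Nat.mod_lt (m - j - 1) hdpos
    rw [mul_comm] at *
    nlinarith
  have h3 : 1 ≤ (m - j - 1) / d := by
    rw [Nat.one_le_div_iff hdpos]; omega
  have h4 : (m - j - 1) / d ≤ m := (Nat.div_le_self _ _).trans (by omega)
  generalize (m - j - 1) / d = N at *
  obtain ⟨n, rfl⟩ : ∃ n, N = n + 1 := ⟨N - 1, by omega⟩
  have hexp : (n + 1 + 1) * d = (n + 1) * d + d := by ring
  have l := P.lower hs hd n k (m + j - s) (by omega) (by omega) (by omega)
  omega

/-- In late odd blocks only `m` is ever selected. -/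
lemma odd_late (P : Play S m a b) {k j : ℕ} (hk : m ≤ k) (hj : j < m) :
    a (2 * (m * k) + m + j) = m + b (2 * (m * k) + j) ∧
    b (2 * (m * k) + m + j) = a (2 * (m * k) + j) := by
  obtain ⟨s, hs, hjs, hsm, e1, e2⟩ := P.odd_sel (k := k) hj
  rcases Nat.lt_or_ge s m with hlt | hge
  · exfalso
    have l := P.large hk hs hlt hjs
    have t := P.total (2 * (m * (k + 1)) + j)
    have e := P.eb (k := k + 1) hj
    have g := P.ge (2 * (m * (k + 1)) + j) m P.mS (by rw [Nat.mul_succ]; omega)
    rw [Nat.mul_succ] at t e g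
    rw [show 2 * (m * k + m) + j - m = 2 * (m * k) + m + j by omega] at g
    omega
  · obtain rfl : s = m := by omega
    rw [show s + j - s = j by omega] at e1 e2
    exact ⟨e1, e2⟩

lemma even_mono (P : Play S m a b) {k j : ℕ} (hk : m ≤ k) (hj : j < m) :
    a (2 * (m * k) + j) + m ≤ a (2 * (m * (k + 1)) + j) := by
  have g := P.ge (2 * (m * (k + 1)) + j) m P.mS (by rw [Nat.mul_succ]; omega)
  rw [Nat.mul_succ] at g ⊢
  rw [show 2 * (m * k + m) + j - m = 2 * (m * k) + m + j by omega, (P.odd_late hk hj).2] at g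
  omega

end Play

/-- A bounded, eventually nondecreasing sequence of naturals is eventually constant. -/
lemma eventually_const (f : ℕ → ℕ) (B : ℕ) : ∀ n K, (∀ k ≥ K, f k ≤ f (k + 1)) →
    (∀ k ≥ K, f k ≤ B) → B - f K ≤ n → ∃ K' ≥ K, ∀ k ≥ K', f k = f K' := by
  intro n
  induction n with
  | zero =>
    intro K hm hb h0
    refine ⟨K, le_rfl, ?_⟩
    intro k hk
    have hmono : ∀ k ≥ K, f K ≤ f k := by
      intro k hk
      induction k, hk using Nat.le_induction with
      | base => exact le_rfl
      | succ k hk ih => exact ih.trans (hm k hk)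
    have := hb k hk
    have := hb K le_rfl
    have := hmono k hk
    omega
  | succ n ih =>
    intro K hm hb h0
    have hmono : ∀ k ≥ K, f K ≤ f k := by
      intro k hk
      induction k, hk using Nat.le_induction with
      | base => exact le_rfl
      | succ k hk ih => exact ih.trans (hm k hk)
    by_cases hc : ∀ k ≥ K, f k = f K
    · exact ⟨K, le_rfl, hc⟩
    · push Not at hc
      obtain ⟨k, hk, hne⟩ := hc
      have h1 := hmono k hk
      obtain ⟨K', hK', h'⟩ := ih k (fun t ht => hm t (by omega)) (fun t ht => hb t (by omega))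
        (by have := hb k hk; omega)
      exact ⟨K', by omega, h'⟩

/-- Uniform version over finitely many indices. -/
lemma eventually_const_unif (f : ℕ → ℕ → ℕ) (B K m : ℕ)
    (hm : ∀ j < m, ∀ k ≥ K, f j k ≤ f j (k + 1)) (hb : ∀ j < m, ∀ k ≥ K, f j k ≤ B) :
    ∃ K' ≥ K, ∀ j < m, ∀ k ≥ K', f j (k + 1) = f j k := by
  induction m with
  | zero => exact ⟨K, le_rfl, fun j hj => absurd hj (by omega)⟩
  | succ m ih =>
    obtain ⟨K1, h1, c1⟩ := ih (fun j hj => hm j (by omega)) (fun j hj => hb j (by omega))
    obtain ⟨K2, h2, c2⟩ := eventually_const (f m) B (B - f m K) K (hm m (by omega))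
      (hb m (by omega)) le_rfl
    refine ⟨max K1 K2, le_max_of_le_left h1, ?_⟩
    intro j hj k hk
    rcases Nat.lt_succ_iff_lt_or_eq.mp hj with h | rfl
    · exact c1 j h k ((le_max_left _ _).trans hk)
    · rw [c2 (k + 1) (by have := (le_max_right K1 K2).trans hk; omega),
        c2 k ((le_max_right _ _).trans hk)]

namespace Play

variable {S : Finset ℕ} {m : ℕ} {a b : ℕ → ℕ}

lemma a_const (P : Play S m a b) : ∃ K ≥ m, ∀ j < m, ∀ k ≥ K,
    a (2 * (m * (k + 1)) + j) = a (2 * (m * k) + j) + m := by
  obtain ⟨K, hK, hc⟩ := eventually_const_unif (fun j k => a (2 * (m * k) + j) - m * k) m m m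
    (by
      intro j hj k hk
      have h1 := P.even_mono hk hj
      have h2 := P.ea (k := k) hj
      simp only [Nat.mul_succ] at h1 h2 ⊢
      omega)
    (by
      intro j hj k _
      have h1 := P.total (2 * (m * k) + j)
      have h2 := P.eb (k := k) hj
      omega)
  refine ⟨K, hK, fun j hj k hk => ?_⟩
  have h := hc j hj k hk
  have h1 := P.ea (k := k) hj
  have h2 := P.ea (k := k + 1) hj
  simp only [Nat.mul_succ] at h h1 h2 ⊢
  omega

/-- Late in the game `m` is optimal in even blocks. -/
lemma even_late (P : Play S m a b) {K : ℕ} (hK : m ≤ K)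
    (hc : ∀ j < m, ∀ k ≥ K, a (2 * (m * (k + 1)) + j) = a (2 * (m * k) + j) + m)
    {j k : ℕ} (hj : j < m) (hk : K ≤ k) :
    a (2 * (m * (k + 1)) + j) = m + b (2 * (m * (k + 1)) + j - m) := by
  rw [hc j hj k hk, Nat.mul_succ, show 2 * (m * k + m) + j - m = 2 * (m * k) + m + j by omega,
    (P.odd_late (by omega) hj).2]
  omega

/-- Conclusion from eventual constancy of `b` on even blocks. -/
lemma periodic_of (P : Play S m a b) {K : ℕ} (hK : m ≤ K)
    (ha : ∀ j < m, ∀ k ≥ K, a (2 * (m * (k + 1)) + j) = a (2 * (m * k) + j) + m)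
    (hb : ∀ j < m, ∀ k ≥ K, b (2 * (m * (k + 1)) + j) = b (2 * (m * k) + j) + m) :
    ∀ h ≥ 2 * (m * K), a (h + 2 * m) = a h + m ∧ b (h + 2 * m) = b h + m := by
  intro h hh
  have hm := P.mpos
  -- write h = 2 m k + i with i < 2 m
  obtain ⟨k, i, hi, rfl⟩ : ∃ k i, i < 2 * m ∧ h = 2 * (m * k) + i := by
    refine ⟨h / (2 * m), h % (2 * m), Nat.mod_lt _ (by omega), ?_⟩
    have := Nat.div_add_mod h (2 * m)
    nlinarith
  have hkK : K ≤ k := by
    by_contra hcon
    have : m * (k + 1) ≤ m * K := Nat.mul_le_mul_left m (by omega)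
    rw [Nat.mul_succ] at this
    omega
  rcases Nat.lt_or_ge i m with hlt | hge
  · have e1 := ha i hlt k hkK
    have e2 := hb i hlt k hkK
    rw [Nat.mul_succ, show 2 * (m * k + m) + i = 2 * (m * k) + i + 2 * m by omega] at e1 e2
    exact ⟨e1, e2⟩
  · obtain ⟨j, rfl⟩ : ∃ j, i = m + j := ⟨i - m, by omega⟩
    have hj : j < m := by omega
    have e1 := ha j hj k hkK
    have e2 := hb j hj k hkK
    have o1 := P.odd_late (k := k) (by omega) hj
    have o2 := P.odd_late (k := k + 1) (by omega) hj
    rw [Nat.mul_succ] at e1 e2 o2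
    rw [show 2 * (m * k + m) + m + j = 2 * (m * k) + (m + j) + 2 * m by omega] at o2
    rw [show 2 * (m * k) + m + j = 2 * (m * k) + (m + j) by omega] at o1
    omega

end Play

/-- The outcome functions form a `Play`. -/
lemma play_outcome (S : Finset ℕ) (hne : S.Nonempty) (hpos : ∀ s ∈ S, 0 < s) (X : Convention) :
    Play S (S.max' hne) (fun h => (outcome S X h).1) (fun h => (outcome S X h).2) where
  mS := S.max'_mem hne
  mpos := hpos _ (S.max'_mem hne)
  rng := fun s hs => ⟨hpos s hs, S.le_max' s hs⟩
  ge := fun h s hs hsh => ge_of_mem S X hs (hpos s hs) hsh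
  sel := by
    rintro h ⟨s, hs, hsh⟩
    obtain ⟨t, ht, e1, e2⟩ := exists_sel S X (h := h) ⟨s, mem_legal.mpr ⟨hs, hpos s hs, hsh⟩⟩
    rw [mem_legal] at ht
    exact ⟨t, ht.1, ht.2.2, e1, e2⟩
  zero := by
    intro h hn
    have : outcome S X h = (0, 0) := by
      apply no_move
      rintro ⟨s, hs⟩
      rw [mem_legal] at hs
      exact hn ⟨s, hs.1, hs.2.2⟩
    simp [this]

/-- Both outcomes are eventually arithmetic-periodic. -/
lemma outcome_periodic (S : Finset ℕ) (hne : S.Nonempty) (hpos : ∀ s ∈ S, 0 < s)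
    (X : Convention) : ∃ h₀, ∀ h ≥ h₀,
      (outcome S X (h + 2 * S.max' hne)).1 = (outcome S X h).1 + S.max' hne ∧
      (outcome S X (h + 2 * S.max' hne)).2 = (outcome S X h).2 + S.max' hne := by
  have P := play_outcome S hne hpos X
  have hmem := S.max'_mem hne
  generalize hmdef : S.max' hne = m at *
  obtain ⟨K, hK, hc⟩ := P.a_const
  have hmp := P.mpos
  -- the tie-breaking inequality
  have hb : ∃ K' ≥ K, ∀ j < m, ∀ k ≥ K',
      (outcome S X (2 * (m * (k + 1)) + j)).2 = (outcome S X (2 * (m * k) + j)).2 + m := by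
    cases X with
    | friendly =>
      obtain ⟨K', hK', h'⟩ := eventually_const_unif
        (fun j k => (outcome S .friendly (2 * (m * k) + j)).2 - m * k) m K m
        (by
          intro j hj k hk
          have e := P.even_late hK hc hj hk
          have f := friendly_ge S (h := 2 * (m * (k + 1)) + j) (s := m)
            (mem_legal.mpr ⟨hmem, hmp, by rw [Nat.mul_succ]; omega⟩) e
          have o := (P.odd_late (k := k) (by omega) hj).1
          have b1 := P.eb (k := k) hj
          simp only [Nat.mul_succ] at e f o b1 ⊢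
          rw [show 2 * (m * k + m) + j - m = 2 * (m * k) + m + j by omega] at f
          omega)
        (by
          intro j hj k _
          have h1 := P.total (2 * (m * k) + j)
          have h2 := P.ea (k := k) hj
          omega)
      refine ⟨K', hK', fun j hj k hk => ?_⟩
      have h := h' j hj k hk
      have h1 := P.eb (k := k) hj
      have h2 := P.eb (k := k + 1) hj
      simp only [Nat.mul_succ] at h h1 h2 ⊢
      omega
    | antagonistic =>
      obtain ⟨K', hK', h'⟩ := eventually_const_unif
        (fun j k => (m * k + m) - (outcome S .antagonistic (2 * (m * k) + j)).2) m K m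
        (by
          intro j hj k hk
          have e := P.even_late hK hc hj hk
          have f := antagonistic_le S (h := 2 * (m * (k + 1)) + j) (s := m)
            (mem_legal.mpr ⟨hmem, hmp, by rw [Nat.mul_succ]; omega⟩) e
          have o := (P.odd_late (k := k) (by omega) hj).1
          have b1 := P.eb (k := k) hj
          simp only [Nat.mul_succ] at e f o b1 ⊢
          rw [show 2 * (m * k + m) + j - m = 2 * (m * k) + m + j by omega] at f
          omega)
        (by
          intro j hj k _
          have h1 := P.eb (k := k) hj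
          omega)
      refine ⟨K', hK', fun j hj k hk => ?_⟩
      have h := h' j hj k hk
      have h1 := P.eb (k := k) hj
      have h2 := P.eb (k := k + 1) hj
      have t1 := P.total (2 * (m * k) + j)
      have t2 := P.total (2 * (m * (k + 1)) + j)
      have a1 := P.ea (k := k) hj
      have a2 := P.ea (k := k + 1) hj
      simp only [Nat.mul_succ] at h h1 h2 t1 t2 a1 a2 ⊢
      omega
  obtain ⟨K', hK', hb⟩ := hb
  exact ⟨2 * (m * K'), P.periodic_of (by omega) (fun j hj k hk => hc j hj k (by omega)) hb⟩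

/-- **Q1 (yes).** For every finite nonempty set `S` of positive integers with maximum `m`:
both discrepancy sequences are eventually periodic with period `2m`; moreover, for each
tie-breaking convention, `o¹(h+2m) = o¹(h)+m` and `o²(h+2m) = o²(h)+m` for all large `h`. -/
theorem result (S : Finset ℕ) (hne : S.Nonempty) (hpos : ∀ s ∈ S, 0 < s) :
    (∀ i : Fin 2, ∃ h₀ : ℕ, ∀ h ≥ h₀,
      discrepancy S i (h + 2 * S.max' hne) = discrepancy S i h) ∧
    (∀ X : Convention, ∃ h₀ : ℕ, ∀ h ≥ h₀,
      (outcome S X (h + 2 * S.max' hne)).1 = (outcome S X h).1 + S.max' hne ∧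
      (outcome S X (h + 2 * S.max' hne)).2 = (outcome S X h).2 + S.max' hne) := by
  refine ⟨?_, fun X => outcome_periodic S hne hpos X⟩
  obtain ⟨hF, pF⟩ := outcome_periodic S hne hpos .friendly
  obtain ⟨hA, pA⟩ := outcome_periodic S hne hpos .antagonistic
  intro i
  refine ⟨max hF hA, fun h hh => ?_⟩
  obtain ⟨f1, f2⟩ := pF h ((le_max_left _ _).trans hh)
  obtain ⟨a1, a2⟩ := pA h ((le_max_right _ _).trans hh)
  unfold discrepancy
  split_ifs
  · rw [f1, a1]; push_cast; ring
  · rw [f2, a2]; push_cast; ring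

end Pool.Agent.Results.MP_e9de46_co.DiscrepancyPeriodic
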